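import Pool.Agent.Helper88.LG.Goals
import Pool.Agent.Helper94.Tot.Final
import Pool.Agent.Helper90.Tot.BT

/-! # Packet BG: the Brun-Titchmarsh inequality in a general residue class -/

set_option autoImplicit false

open Finset

open scoped Classical

namespace Pool.Agent.Helper27.LG

open Pool.Agent.Helper94.Tot Pool.Agent.Helper90.Twin

open Pool.Agent.Helper90.Tot (exists_root prod_le_ratio one_le_ratio)

theorem nu_val (d b : ℕ) (hdb : Nat.Coprime b d) {p : ℕ} (hp : p.Prime) :
    nu (fun p t => if p ∣ d * (t + 1) + b then (1 : ℝ) else 0) p =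
      if p ∣ d then 0 else 1 := by
  unfold nu
  have : Fact p.Prime := ⟨hp⟩
  simp only
  rw [Finset.sum_boole]
  by_cases hd : p ∣ d
  · rw [if_pos hd]
    rw [Nat.cast_eq_zero, Finset.card_eq_zero, Finset.filter_eq_empty_iff]
    intro x _ hx
    have h1 : p ∣ b := (Nat.dvd_add_right (hd.mul_right (x + 1))).1 hx
    exact hp.one_lt.ne' (Nat.dvd_one.1 (hdb ▸ Nat.dvd_gcd h1 hd))
  · rw [if_neg hd]
    have hd0 : (d : ZMod p) ≠ 0 := by
      rwa [Ne, ZMod.natCast_eq_zero_iff]
    have : (range p).filter (fun x => p ∣ d * (x + 1) + b) = {(-(b : ZMod p) * (d : ZMod p)⁻¹ - 1).val} := by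
      ext x
      rw [mem_filter, mem_range, mem_singleton]
      constructor
      · rintro ⟨hx, hx2⟩
        rw [← ZMod.natCast_eq_zero_iff] at hx2
        push_cast at hx2
        have h3 : (x : ZMod p) = -(b : ZMod p) * (d : ZMod p)⁻¹ - 1 := by
          field_simp
          linear_combination hx2
        rw [← h3, ZMod.val_natCast_of_lt hx]
      · rintro rfl
        refine ⟨ZMod.val_lt _, ?_⟩
        rw [← ZMod.natCast_eq_zero_iff]
        push_cast
        rw [ZMod.natCast_val, ZMod.cast_id', id]
        field_simp
        ring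
    rw [this, card_singleton, Nat.cast_one]

theorem adm (d b : ℕ) (hdb : Nat.Coprime b d) :
    Adm (fun p t => if p ∣ d * (t + 1) + b then (1 : ℝ) else 0) 2 := by
  refine ⟨?_, ?_, ?_, ?_⟩
  · intro p _ _ x
    show _ ≤ _
    split_ifs <;> norm_num
  · intro p _ _ x
    show _ ≤ _
    split_ifs <;> norm_num
  · intro p _ _ x
    have h : p ∣ d * (x + p + 1) + b ↔ p ∣ d * (x + 1) + b := by
      rw [show d * (x + p + 1) + b = d * (x + 1) + b + p * d by ring]
      exact (Nat.dvd_add_left (dvd_mul_right p d))
    simp only [h]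
  · intro p hp _
    rw [nu_val d b hdb hp]
    split_ifs <;> norm_num

theorem pf_BG (hGS : StmtGS) (hMP : StmtMP) (hSz : StmtSz) : Pool.Agent.Helper88.LG.StmtBG := by
  obtain ⟨K, C1, hK, hC1, hS⟩ := hGS
  obtain ⟨C2, hC2, hM⟩ := hMP
  obtain ⟨C3, hC3, hZ⟩ := hSz
  set k := K + 1 with hk
  set D := C2 * Real.log 4 + C3 with hD
  have hlog4 : 0 < Real.log 4 := Real.log_pos (by norm_num)
  have hD0 : 0 < D := by positivity
  refine ⟨2 * k * C1 * D + 2 + 5 ^ k, by positivity, fun d b N hd hN hdb => ?_⟩
  have hd0 : d ≠ 0 := by omega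
  have hratio := one_le_ratio d hd0
  set R := (d : ℝ) / (Nat.totient d : ℝ) with hR
  have hNpos : (0 : ℝ) < N := by exact_mod_cast (by omega : 0 < N)
  have hlogN : 0 < Real.log N := Real.log_pos (by exact_mod_cast (by omega : 1 < N))
  have hlogle : Real.log N ≤ N := (Real.log_le_sub_one_of_pos hNpos).trans (by linarith)
  have hdiv1 : 1 ≤ (N : ℝ) / Real.log N := (one_le_div hlogN).2 hlogle
  set Q := (N : ℝ) / Real.log N with hQ
  have hQR : 1 ≤ Q * R := by nlinarith
  have hQR' : Q ≤ Q * R := by nlinarith
  have hcardN : (((Icc 1 N).filter (fun t => (d * t + b).Prime)).card : ℝ) ≤ N := by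
    have : ((Icc 1 N).filter (fun t => (d * t + b).Prime)).card ≤ N := by
      refine (card_filter_le _ _).trans ?_
      simp
    exact_mod_cast this
  rcases Nat.lt_or_ge N (5 ^ k) with hsmall | hlarge
  · -- small N
    have h1 : (N : ℝ) ≤ 5 ^ k := by exact_mod_cast hsmall.le
    have h2 : (0 : ℝ) ≤ (2 * k * C1 * D + 2) * Q * R := by positivity
    calc (((Icc 1 N).filter (fun t => (d * t + b).Prime)).card : ℝ) ≤ 5 ^ k := hcardN.trans h1
      _ ≤ 5 ^ k * (Q * R) := le_mul_of_one_le_right (by positivity) hQR
      _ ≤ (2 * k * C1 * D + 2 + 5 ^ k) * Q * R := by linarith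
  · -- large N
    obtain ⟨z, hz1, hz2⟩ := exists_root N k (by omega)
    have hz5 : 5 ≤ z := by
      by_contra hn
      push Not at hn
      have : (z + 1) ^ k ≤ 5 ^ k := Nat.pow_le_pow_left (by omega) k
      omega
    have hzK : z ^ K ≤ N := (Nat.pow_le_pow_right (by omega) (by omega)).trans hz1
    have hz2' : z ^ 2 ≤ N := (Nat.pow_le_pow_right (by omega) (by omega)).trans hz1
    have hzpos : (0 : ℝ) < z := by exact_mod_cast (by omega : 0 < z)
    have hlogz : 0 < Real.log z := Real.log_pos (by exact_mod_cast (by omega : 1 < z))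
    -- comparison of the logarithms
    have hlogNz : Real.log N ≤ 2 * k * Real.log z := by
      have h1 : (N : ℝ) ≤ (z : ℝ) ^ (2 * k) := by
        have : N ≤ z ^ (2 * k) := by
          refine hz2.le.trans ?_
          rw [pow_mul]
          apply Nat.pow_le_pow_left
          nlinarith
        exact_mod_cast this
      have h2 := Real.log_le_log hNpos h1
      rw [Real.log_pow] at h2
      push_cast at h2
      linarith
    have hinv : 1 / Real.log z ≤ 2 * k / Real.log N := by
      rw [div_le_div_iff₀ hlogz hlogN]
      linarith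
    -- the sieve bound
    set w : ℕ → ℕ → ℝ := fun p t => if p ∣ d * (t + 1) + b then (1 : ℝ) else 0 with hw
    have hsieve := hS z N (by omega) hzK w (adm d b hdb)
    have hprod : ∏ p ∈ Ps z, (1 - nu w p / p) ≤ C2 * (Real.log 4 / Real.log z) * R := by
      have e1 : ∏ p ∈ Ps z, (1 - nu w p / p) =
          ∏ p ∈ (Ps z).filter (fun p => ¬ p ∣ d), (1 - 1 / (p : ℝ)) := by
        rw [Finset.prod_filter]
        refine Finset.prod_congr rfl fun p hp => ?_
        rw [hw, nu_val d b hdb (mem_Ps.1 hp).2.2]
        by_cases h : p ∣ d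
        · rw [if_pos h, if_neg (by simpa using h)]
          simp
        · rw [if_neg h, if_pos h]
      rw [e1]
      refine (prod_le_ratio d hd0 z).trans ?_
      apply mul_le_mul_of_nonneg_right _ (by linarith)
      have e2 : Ps z = (Ioc 4 z).filter Nat.Prime := by
        ext p
        rw [mem_Ps, mem_filter, mem_Ioc]
        constructor
        · rintro ⟨a, b, c⟩
          exact ⟨⟨by omega, b⟩, c⟩
        · rintro ⟨⟨a, b⟩, c⟩
          exact ⟨by omega, b, c⟩
      rw [e2]
      have := hM 4 z (by norm_num) (by omega)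
      exact_mod_cast this
    have hexp : Real.exp (-(3 * Sz z)) ≤ C3 / Real.log z := by
      refine le_trans ?_ (hZ z (by omega))
      apply Real.exp_le_exp.2
      have : 0 ≤ Sz z := Finset.sum_nonneg fun p _ => by positivity
      linarith
    have hmain : ∑ t ∈ range N, ∏ p ∈ Ps z, (1 - w p t) ≤ 2 * k * C1 * D * (Q * R) := by
      refine hsieve.trans ?_
      have h1 : ∏ p ∈ Ps z, (1 - nu w p / p) + Real.exp (-(3 * Sz z)) ≤
          D * R * (1 / Real.log z) := by
        refine (add_le_add hprod hexp).trans ?_
        have : C3 / Real.log z ≤ C3 * R / Real.log z := by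
          apply div_le_div_of_nonneg_right _ hlogz.le
          nlinarith
        rw [hD]
        calc C2 * (Real.log 4 / Real.log z) * R + C3 / Real.log z ≤
            C2 * (Real.log 4 / Real.log z) * R + C3 * R / Real.log z := by linarith
          _ = (C2 * Real.log 4 + C3) * R * (1 / Real.log z) := by ring
      have hDR : 0 ≤ D * R := by positivity
      calc C1 * N * (∏ p ∈ Ps z, (1 - nu w p / p) + Real.exp (-(3 * Sz z)))
          ≤ C1 * N * (D * R * (2 * k / Real.log N)) := by
            apply mul_le_mul_of_nonneg_left _ (by positivity)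
            exact h1.trans (mul_le_mul_of_nonneg_left hinv hDR)
        _ = 2 * k * C1 * D * (Q * R) := by
            rw [hQ]
            ring
    -- the count
    have hcount : (((Icc 1 N).filter (fun t => (d * t + b).Prime)).card : ℝ) ≤
        z + ∑ t ∈ range N, ∏ p ∈ Ps z, (1 - w p t) := by
      have e1 : ((Icc 1 N).filter (fun t => (d * t + b).Prime)).card =
          ((range N).filter (fun t => (d * (t + 1) + b).Prime)).card := by
        have : (Icc 1 N).filter (fun t => (d * t + b).Prime) =
            ((range N).filter (fun t => (d * (t + 1) + b).Prime)).image (fun t => t + 1) := by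
          ext t
          simp only [mem_filter, mem_Icc, mem_image, mem_range]
          constructor
          · rintro ⟨⟨a, b⟩, c⟩
            refine ⟨t - 1, ⟨by omega, ?_⟩, by omega⟩
            rwa [Nat.sub_add_cancel a]
          · rintro ⟨s, ⟨a, b⟩, rfl⟩
            exact ⟨⟨by omega, by omega⟩, b⟩
        rw [this, card_image_of_injective _ (add_left_injective 1)]
      rw [e1]
      have e2 : (range N).filter (fun t => (d * (t + 1) + b).Prime) ⊆
          range z ∪ (range N).filter (fun t => (d * (t + 1) + b).Prime ∧ z < d * (t + 1) + b) := by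
        intro t ht
        rw [mem_filter] at ht
        rw [mem_union, mem_range, mem_filter]
        rcases Nat.lt_or_ge t z with h | h
        · exact Or.inl h
        · refine Or.inr ⟨ht.1, ht.2, ?_⟩
          have : t + 1 ≤ d * (t + 1) := Nat.le_mul_of_pos_left _ (by omega)
          omega
      have e3 : (((range N).filter
          (fun t => (d * (t + 1) + b).Prime ∧ z < d * (t + 1) + b)).card : ℝ) ≤
          ∑ t ∈ range N, ∏ p ∈ Ps z, (1 - w p t) := by
        rw [Finset.card_filter]
        push_cast
        refine Finset.sum_le_sum fun t _ => ?_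
        split_ifs with h
        · apply le_of_eq
          symm
          apply Finset.prod_eq_one
          intro p hp
          rw [mem_Ps] at hp
          have : ¬ p ∣ d * (t + 1) + b := by
            intro hdv
            rcases (Nat.dvd_prime h.1).1 hdv with h1 | h1
            · omega
            · omega
          rw [hw]
          simp only
          rw [if_neg this, sub_zero]
        · refine Finset.prod_nonneg fun p _ => ?_
          rw [hw]
          simp only
          split_ifs <;> norm_num
      have e4 := (card_le_card e2).trans (card_union_le _ _)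
      rw [card_range] at e4
      have e5 : (((range N).filter (fun t => (d * (t + 1) + b).Prime)).card : ℝ) ≤
          z + (((range N).filter
          (fun t => (d * (t + 1) + b).Prime ∧ z < d * (t + 1) + b)).card : ℝ) := by
        exact_mod_cast e4
      linarith
    -- z is small
    have hzs : (z : ℝ) ≤ 2 * Q := by
      have h1 : (z : ℝ) ^ 2 ≤ N := by exact_mod_cast hz2'
      have h2 : Real.log N ≤ 2 * √(N : ℝ) := by
        have h3 := Real.log_le_sub_one_of_pos (Real.sqrt_pos.2 hNpos)
        rw [Real.log_sqrt hNpos.le] at h3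
        linarith
      have h3 : (z : ℝ) ≤ √(N : ℝ) := Real.le_sqrt_of_sq_le h1
      rw [hQ, ← mul_div_assoc, le_div_iff₀ hlogN]
      have h4 : √(N : ℝ) * √(N : ℝ) = N := Real.mul_self_sqrt hNpos.le
      calc (z : ℝ) * Real.log N ≤ √(N : ℝ) * (2 * √(N : ℝ)) :=
            mul_le_mul h3 h2 hlogN.le (Real.sqrt_nonneg _)
        _ = 2 * N := by linarith
    calc (((Icc 1 N).filter (fun t => (d * t + b).Prime)).card : ℝ)
        ≤ z + ∑ t ∈ range N, ∏ p ∈ Ps z, (1 - w p t) := hcount
      _ ≤ 2 * (Q * R) + 2 * k * C1 * D * (Q * R) := by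
          have : (z : ℝ) ≤ 2 * (Q * R) := by linarith
          linarith
      _ ≤ (2 * k * C1 * D + 2 + 5 ^ k) * Q * R := by
          have h9 : (0 : ℝ) ≤ 5 ^ k * (Q * R) := by positivity
          nlinarith

theorem bg : Pool.Agent.Helper88.LG.StmtBG := pf_BG allGS allMP allSz

end Pool.Agent.Helper27.LG
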